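import Pool.Agent.H26.LN.Trip
import Pool.Agent.H51.GD.Defs

/-!
# The class reached by determinants, limits, constant parts and transfer
-/

noncomputable section

namespace GD

open Complex

/-- The structure `R` is isomorphic to the Tate twist `S(-n)` of the structure `S`, for some
`n ≥ 0`. -/
def Twist (S R : Str) : Prop :=
  ∃ (g : S.W ≃ₗ[ℂ] R.W) (n : ℕ), R.wt = S.wt + 2 * n ∧ (∀ x, x ∈ S.B ↔ g x ∈ R.B) ∧
    (∀ x, S.InD x ↔ R.InD ((2 * Real.pi * I : ℂ) ^ n • g x)) ∧
    ∀ p x, S.InH p x ↔ R.InH (p + n) (g x)

/-- `E` is a constant part of the variation, with the limit in the piece `T j`: it is embedded in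
the fibre `S`, the image consists of vectors which are invariant under the monodromy and the twist
and which lie in the piece `T j` of the limit, with the same Hodge types there. -/
def LimFam.ConstPart {S : Str} {k : ℕ} {T : Fin k → Str} (V : LimFam S T) (j : Fin k)
    (E : Str) : Prop :=
  S.wt = (T j).wt ∧ ∃ f : E.W →ₗ[ℂ] S.W, IsHom E S f ∧ Function.Injective f ∧
    (∀ x, V.Const j (f x)) ∧ ∀ p x, E.InH p x → (T j).InH p (V.gr j (f x))

section field

variable {F : Type} [Field F] (e : F →+* ℂ)

/-- The action `φ` of the field `K` on a factor of `S` is good with respect to the class `C`: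
the relation of Gross and Deligne holds for the determinants of periods of the factor over `K`, or
the action is flat in a variation over a curve with a limit whose graded pieces are polarised and
lie in `C`. -/
def GoodAct (C : Str → Prop) {S : Str} {K : Type} [Field K] (i : K →+* F) (φ : Act K S) : Prop :=
  GammaRel (e.comp i) (factorType φ) (IsFactorPeriod φ) ∨
    ∃ (k : ℕ) (T : Fin k → Str), (∀ j, Nonempty (Pol (T j)) ∧ C (T j)) ∧
      ∃ V : LimFam S T, V.Flat φ

/-- All actions of imaginary cyclic subfields `K` of `F` on factors of `S` through the centre of
the endomorphisms are good after restriction to some factor which is not zero. -/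
def GoodCenter (C : Str → Prop) (S : Str) : Prop :=
  ∀ (K : Type) [Field K] [NumberField K] (i : K →+* F), (∃ x, (e (i x)).im ≠ 0) →
    IsGalois ℚ K → IsCyclic (K ≃ₐ[ℚ] K) → ∀ κ : Act K S, CentralAction κ →
      ∃ φ : Act K S, IsRestriction κ φ ∧ GoodAct e C i φ

/-- The structure `P` is a transfer of the structure `Q`: they are fibres at the same point of two
variations over a curve, and there is an isomorphism `φ` of local systems between the two, linear
over a subfield `K` of `F`, unique up to scalars on the parts on which `K` acts through one
embedding `τ`, which adds `n τ` to the Hodge types of this part. If `K` is not real, the action of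
`K` on `P` is good. -/
def Transfer (C : Str → Prop) (Q P : Str) : Prop :=
  ∃ (V : TwoFam P Q) (K : Type) (_ : Field K) (_ : NumberField K) (i : K →+* F) (κ : Act K P)
    (μ : Act K Q) (φ : Q.W ≃ₗ[ℂ] P.W) (n : (K →+* ℂ) → ℕ), V.Iso κ μ φ n ∧
      ((∃ x, (e (i x)).im ≠ 0) → GoodAct e C i κ)

/-- The class `C` contains the polarised structures of gamma type, is closed under tensor products,
direct sums, quotients and (in both directions) Tate twists, and contains

* every polarised structure `S` such that the actions of imaginary cyclic subfields of `F` through
  the centre of the endomorphisms of `S` are good on some factor;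
* the constant parts of variations over curves with a limit in `C`;
* all transfers of its members. -/
structure Closed (C : Str → Prop) : Prop where
  gamma : ∀ S, Nonempty (Pol S) → GammaType S → C S
  gen : ∀ S, Gen C S → C S
  twist : ∀ R S, C R → Nonempty (Pol S) → Twist S R → C S
  good : ∀ S, Nonempty (Pol S) → GoodCenter e C S → C S
  const : ∀ (S : Str) (k : ℕ) (T : Fin k → Str) (V : LimFam S T) (j : Fin k),
    Nonempty (Pol (T j)) → C (T j) → ∀ E, V.ConstPart j E → C E
  transfer : ∀ Q P, C Q → Transfer e C Q P → C P

/-- The smallest class which is closed in this sense. -/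
def InClosure (R : Str) : Prop := ∀ C : Str → Prop, Closed e C → C R

end field

end GD
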