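import Pool.Agent.H26.LN.Trip

/-!
# The cohomology of Fermat varieties: definitions
-/

noncomputable section

namespace GD

open Complex Finset

/-- The number `⟨l b⟩ / N`. -/
def frc {N : ℕ} (b : ZMod N) (l : (ZMod N)ˣ) : ℚ := ((b * (l : ZMod N)).val : ℚ) / N

/-- The integral of `x₀ ^ (α₀ - 1) ⋯ x_n ^ (α_n - 1)` over the simplex `∑ xᵢ = 1`, `xᵢ > 0`, as a
product of beta integrals `∫ x ^ (u - 1) (1 - x) ^ (v - 1) dx` over `[0, 1]`. -/
def dirichlet (n : ℕ) (α : ℕ → ℚ) : ℂ :=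
  ∏ k ∈ range n, betaIntegral ((∑ i ∈ range (k + 1), α i : ℚ) : ℂ) ((α (k + 1) : ℚ) : ℂ)

/-- Linear combinations. -/
def Str.comb (S : Str) {m : ℕ} (c : Fin m → ℂ) (b : Fin m → S.W) : S.W := ∑ k, c k • b k

/-- `x` is a vector for the character `a` of `μ_N ^ (n + 2)` (`aᵢ ≠ 0`, `∑ aᵢ = 0`) in the
cohomology `H^n` of the Fermat variety `x₀ ^ N + ⋯ + x_{n + 1} ^ N = 0`: a combination of rational
vectors with coefficients in `ℚ(μ_N)`, the conjugate of which for `t` (the eigenvector for `t a`)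
has type `(p, n - p)` with `p + 1 = ∑ ⟨-t aᵢ⟩ / N`, and becomes a de Rham vector when it is
multiplied by the integral of `∏ xᵢ ^ (⟨t aᵢ⟩ / N - 1)` over the simplex. -/
def IsFermatVec (S : Str) (N n : ℕ) (a : ℕ → ZMod N) (x : S.W) : Prop :=
  ∃ (m : ℕ) (c : Fin m → cyc N) (b : Fin m → S.W), (∀ k, b k ∈ S.B) ∧
    x = S.comb (fun k => (c k : ℂ)) b ∧
    ∀ (t : (ZMod N)ˣ) (s : cyc N →+* ℂ),
      (∀ z : cyc N, (z : ℂ) = zeta N → s z = zeta N ^ (t : ZMod N).val) →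
      ∃ p : ℕ, (p : ℚ) + 1 = ∑ i ∈ range (n + 2), frc (-a i) t ∧
        S.InH p (S.comb (fun k => s (c k)) b) ∧
        S.InD (S.comb (fun k => dirichlet n (fun i => frc (a i) t) * s (c k)) b)

/-- The structure `S` has weight `n` and is spanned by vectors for the characters `u a`, `u` prime
to `N`. -/
def FermatType (S : Str) (N n : ℕ) (a : ℕ → ZMod N) : Prop :=
  S.wt = n ∧ ∀ C : Submodule ℂ S.W,
    (∀ (u : (ZMod N)ˣ) (x : S.W), IsFermatVec S N n (fun i => u * a i) x → x ∈ C) → C = ⊤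

end GD
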