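import Pool.Agent.H51.GD.RkGam
import Pool.Agent.H26.LN.FermatDefs

/-!
# The pieces of the cohomology of Fermat varieties
-/

noncomputable section

namespace GD

open Complex NumberField Finset
open Pool.Agent.H11.GD (cls clG)

section cls

theorem clG_add {q : ℚ} (hq : 0 < q) (k : ℕ) : clG ((q + k : ℚ) : ℝ) = clG (q : ℝ) := by
  induction k with
  | zero => simp
  | succ k ih =>
    rw [← ih]
    have h0 : (0 : ℝ) < ((q + k : ℚ) : ℝ) := by
      have : (0 : ℚ) < q + k := by positivity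
      exact_mod_cast this
    have h1 : ((q + (k + 1 : ℕ) : ℚ) : ℝ) = ((q + k : ℚ) : ℝ) + 1 := by
      push_cast
      ring
    unfold Pool.Agent.H11.GD.clG
    rw [h1, Real.Gamma_add_one h0.ne', Complex.ofReal_mul, gammaSpec.mul _ _
      (by exact_mod_cast h0.ne') (by exact_mod_cast (Real.Gamma_pos_of_pos h0).ne')]
    have h2 : cls ((((q + k : ℚ) : ℝ) : ℂ)) = 0 := by
      refine (gammaSpec.zero_iff _ (by exact_mod_cast h0.ne')).2 ?_
      have := isAlgebraic_algebraMap (R := ℚ) (A := ℂ) (q + k : ℚ)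
      simpa using this
    rw [h2, zero_add]

theorem beta_ne {u v : ℚ} (hu : 0 < u) (hv : 0 < v) :
    betaIntegral (u : ℂ) (v : ℂ) ≠ 0 ∧
      cls (betaIntegral (u : ℂ) (v : ℂ)) = clG (u : ℝ) + clG (v : ℝ) - clG ((u + v : ℚ) : ℝ) := by
  have hu' : (0 : ℝ) < (u : ℝ) := by exact_mod_cast hu
  have hv' : (0 : ℝ) < (v : ℝ) := by exact_mod_cast hv
  have h1 := Complex.Gamma_mul_Gamma_eq_betaIntegral (s := (u : ℂ)) (t := (v : ℂ))
    (by simpa using hu) (by simpa using hv)
  have e1 : Complex.Gamma (u : ℂ) = ((Real.Gamma (u : ℝ) : ℝ) : ℂ) := by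
    rw [← Complex.Gamma_ofReal]
    simp
  have e2 : Complex.Gamma (v : ℂ) = ((Real.Gamma (v : ℝ) : ℝ) : ℂ) := by
    rw [← Complex.Gamma_ofReal]
    simp
  have e3 : Complex.Gamma ((u : ℂ) + v) = ((Real.Gamma ((u + v : ℚ) : ℝ) : ℝ) : ℂ) := by
    rw [← Complex.Gamma_ofReal]
    push_cast
    rfl
  have g1 : ((Real.Gamma (u : ℝ) : ℝ) : ℂ) ≠ 0 := by
    exact_mod_cast (Real.Gamma_pos_of_pos hu').ne'
  have g2 : ((Real.Gamma (v : ℝ) : ℝ) : ℂ) ≠ 0 := by
    exact_mod_cast (Real.Gamma_pos_of_pos hv').ne'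
  have g3 : ((Real.Gamma ((u + v : ℚ) : ℝ) : ℝ) : ℂ) ≠ 0 := by
    have : (0 : ℝ) < ((u + v : ℚ) : ℝ) := by exact_mod_cast add_pos hu hv
    exact_mod_cast (Real.Gamma_pos_of_pos this).ne'
  rw [e1, e2, e3] at h1
  have hB : betaIntegral (u : ℂ) (v : ℂ) ≠ 0 := by
    intro h
    rw [h, mul_zero] at h1
    exact mul_ne_zero g1 g2 h1
  refine ⟨hB, ?_⟩
  have h2 := congrArg cls h1
  rw [gammaSpec.mul _ _ g1 g2, gammaSpec.mul _ _ g3 hB] at h2
  unfold Pool.Agent.H11.GD.clG
  rw [h2]
  abel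

theorem dirichlet_cls (α : ℕ → ℚ) (n : ℕ) (hα : ∀ i < n + 1, 0 < α i) :
    dirichlet n α ≠ 0 ∧ cls (dirichlet n α) =
      ∑ i ∈ range (n + 1), clG (α i : ℝ) - clG ((∑ i ∈ range (n + 1), α i : ℚ) : ℝ) := by
  induction n with
  | zero => simp [dirichlet]
  | succ n ih =>
    obtain ⟨h1, h2⟩ := ih fun i hi => hα i (by omega)
    have hs : 0 < ∑ i ∈ range (n + 1), α i :=
      Finset.sum_pos (fun i hi => hα i (by have := mem_range.1 hi; omega)) ⟨0, by simp⟩
    obtain ⟨h3, h4⟩ := beta_ne hs (hα (n + 1) (by omega))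
    have e : dirichlet (n + 1) α = dirichlet n α *
        betaIntegral ((∑ i ∈ range (n + 1), α i : ℚ) : ℂ) ((α (n + 1) : ℚ) : ℂ) := by
      unfold dirichlet
      rw [prod_range_succ]
    rw [e]
    refine ⟨mul_ne_zero h1 h3, ?_⟩
    rw [gammaSpec.mul _ _ h1 h3, h2, h4, sum_range_succ _ (n + 1), sum_range_succ _ (n + 1)]
    abel

end cls

variable {N n : ℕ} [NeZero N] {a : ℕ → ZMod N}

theorem frc_pos {b : ZMod N} (hb : b ≠ 0) (l : (ZMod N)ˣ) : 0 < frc b l ∧ frc b l < 1 ∧
    frc (-b) l = 1 - frc b l := by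
  have hN : (0 : ℚ) < N := by exact_mod_cast NeZero.pos N
  have h1 : b * (l : ZMod N) ≠ 0 := by
    intro h
    apply hb
    have := congrArg (fun t => t * ((l⁻¹ : (ZMod N)ˣ) : ZMod N)) h
    simpa [mul_assoc] using this
  have h2 := val_add_neg N _ h1
  refine ⟨div_pos ?_ hN, (div_lt_one hN).2 (by exact_mod_cast ZMod.val_lt _), ?_⟩
  · exact_mod_cast Nat.pos_of_ne_zero fun h => h1 ((ZMod.val_eq_zero _).1 h)
  · unfold frc
    rw [neg_mul]
    linarith

theorem frc_sum (l : (ZMod N)ˣ) (m : ℕ) (h : ∑ i ∈ range m, a i = 0) :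
    ∃ k : ℕ, ∑ i ∈ range m, frc (a i) l = k := by
  have hN : (N : ℚ) ≠ 0 := by exact_mod_cast NeZero.ne N
  have h1 : ((∑ i ∈ range m, (a i * (l : ZMod N)).val : ℕ) : ZMod N) = 0 := by
    push_cast
    simp only [ZMod.natCast_val, ZMod.cast_id', id_eq]
    rw [← sum_mul, h, zero_mul]
  obtain ⟨k, hk⟩ := (ZMod.natCast_eq_zero_iff _ _).1 h1
  refine ⟨k, ?_⟩
  unfold frc
  rw [← sum_div, div_eq_iff hN, ← Nat.cast_sum, hk]
  push_cast
  ring

/-- The exponents. -/
def feps (n : ℕ) (a : ℕ → ZMod N) (b : ZMod N) : ℚ :=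
  ∑ i ∈ range (n + 2), (if b = -a i then 1 else 0) - (if b = a 0 then 1 else 0) -
    (if b = -a 0 then 1 else 0)

theorem tsum_feps {M : Type*} [AddCommGroup M] [Module ℚ M] (ψ : ℚ → M) (l : (ZMod N)ˣ) :
    tsum' N ψ (feps n a) l =
      ∑ i ∈ range (n + 2), ψ (frc (-a i) l) - ψ (frc (a 0) l) - ψ (frc (-a 0) l) := by
  have h1 : ∀ c : ZMod N, tsum' N ψ (fun b => if b = c then (1 : ℚ) else 0) l = ψ (frc c l) := by
    intro c
    simp [tsum', frc]
  unfold feps
  rw [tsum_sub, tsum_sub, tsum_sum]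
  simp only [h1]

/-- The combinatorial data of a Fermat piece. -/
theorem fermat_data (ha : ∀ i < n + 2, a i ≠ 0) (hs : ∑ i ∈ range (n + 2), a i = 0)
    (l : (ZMod N)ˣ) :
    ∃ p : ℕ, (p : ℚ) + 1 = ∑ i ∈ range (n + 2), frc (-a i) l ∧
      (N : ℚ) * p = ∑ b ∈ univ.erase (0 : ZMod N), feps n a b * (((l : ZMod N) * b).val : ℚ) ∧
      (∑ i ∈ range (n + 2), frc (-a i) l) + ∑ i ∈ range (n + 2), frc (-a i) (-l) = n + 2 ∧
      Sim (dirichlet n fun i => frc (a i) l) (gammaProd N (feps n a) l) := by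
  have hf := fun i (hi : i ∈ range (n + 2)) => frc_pos (ha i (mem_range.1 hi)) l
  obtain ⟨k, hk⟩ := frc_sum (a := fun i => -a i) l (n + 2) (by rw [sum_neg_distrib, hs, neg_zero])
  have hk0 : 0 < k := by
    have : (0 : ℚ) < k := by
      rw [← hk]
      refine sum_pos (fun i hi => ?_) ⟨0, by simp⟩
      obtain ⟨-, h2, h3⟩ := hf i hi
      rw [h3]
      linarith
    exact_mod_cast this
  obtain ⟨m, hm⟩ := frc_sum (a := a) l (n + 2) hs
  have hkm : k + m = n + 2 := by
    have h1 : (k : ℚ) + m = n + 2 := by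
      rw [← hk, ← hm, ← sum_add_distrib]
      rw [sum_congr rfl fun i hi => by
        rw [show frc (-a i) l + frc (a i) l = 1 by rw [(hf i hi).2.2]; ring]]
      simp
    exact_mod_cast h1
  have hm0 : 0 < m := by
    have : (0 : ℚ) < m := by
      rw [← hm]
      exact sum_pos (fun i hi => (hf i hi).1) ⟨0, by simp⟩
    exact_mod_cast this
  have h0 := frc_pos (ha 0 (by omega)) l
  refine ⟨k - 1, ?_, ?_, ?_, ?_⟩
  · rw [hk, Nat.cast_sub hk0]
    push_cast
    ring
  · rw [sum_erase, ← tsum_id, tsum_feps, hk, h0.2.2, Nat.cast_sub hk0]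
    push_cast
    ring
  · rw [← sum_add_distrib, sum_congr rfl fun i hi => by
      rw [show frc (-a i) l + frc (-a i) (-l) = 1 by
        have h1 : frc (-a i) (-l) = frc (a i) l := by
          unfold frc
          rw [Units.val_neg, neg_mul_neg]
        rw [h1, (hf i hi).2.2]
        ring]]
    simp
  · obtain ⟨h1, h2⟩ := dirichlet_cls (fun i => frc (a i) l) n
      fun i hi => (hf i (mem_range.2 (by omega))).1
    have hg := gammaProd_ne N (feps n a) l
    refine ⟨h1, hg, ?_⟩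
    rw [← Pool.Agent.H11.GD.cls_eq_iff h1 hg, h2, cls_gammaProd gammaSpec, tsum_feps]
    have hgam : ∀ x : ℚ, gam cls x = clG ((1 - x : ℚ) : ℝ) := by
      intro x
      unfold gam Pool.Agent.H11.GD.clG
      push_cast
      rfl
    have hsum : ∑ i ∈ range (n + 2), gam cls (frc (-a i) l) =
        ∑ i ∈ range (n + 2), clG (frc (a i) l : ℝ) := by
      refine sum_congr rfl fun i hi => ?_
      rw [hgam, (hf i hi).2.2]
      congr 2
      ring
    have hn := hf (n + 1) (mem_range.2 (by omega))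
    have hlast : (∑ i ∈ range (n + 1), frc (a i) l) =
        (1 - frc (a (n + 1)) l) + ((m - 1 : ℕ) : ℚ) := by
      rw [sum_range_succ] at hm
      rw [Nat.cast_sub hm0]
      push_cast
      linarith
    rw [hsum, hlast, clG_add (by linarith [hn.2.1]), sum_range_succ _ (n + 1), hgam, hgam,
      h0.2.2]
    have r1 := Pool.Agent.H11.GD.clG_reflect hn.1 hn.2.1
    have r2 := Pool.Agent.H11.GD.clG_reflect h0.1 h0.2.1
    have e1 : ((1 - (1 - frc (a 0) l) : ℚ) : ℝ) = (frc (a 0) l : ℝ) := by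
      push_cast
      ring
    have e2 : ((1 - frc (a 0) l : ℚ) : ℝ) = 1 - (frc (a 0) l : ℝ) := by push_cast; rfl
    have e3 : ((1 - frc (a (n + 1)) l : ℚ) : ℝ) = 1 - (frc (a (n + 1)) l : ℝ) := by
      push_cast
      rfl
    rw [e1, e2, e3]
    rw [← eq_sub_iff_add_eq'] at r1 r2
    rw [r1, r2]
    abel

open scoped Classical in
private theorem single_sum {K : Type} [Field K] [NumberField K] (τ : K →+* ℂ) (q : ℂ) :
    (Pi.single τ q : (K →+* ℂ) → ℂ) = ∑ i, (q * τ (bad K i)) • (fun σ : K →+* ℂ => σ (bas K i)) := by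
  funext σ
  rw [Finset.sum_apply]
  simp only [Pi.smul_apply, smul_eq_mul, mul_assoc]
  rw [← Finset.mul_sum, orth K τ σ, Pi.single_apply]
  split_ifs <;> simp

omit [NeZero N] in
theorem frc_mul (b : ZMod N) (t l : (ZMod N)ˣ) : frc b (t * l) = frc ((l : ZMod N) * b) t := by
  unfold frc
  rw [Units.val_mul]
  congr 3
  ring

/-- The pieces of Fermat varieties are polarised and of gamma type. -/
theorem exists_fermat (ha : ∀ i < n + 2, a i ≠ 0) (hs : ∑ i ∈ range (n + 2), a i = 0) :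
    ∃ S : Str, Nonempty (Pol S) ∧ GammaType S ∧ FermatType S N n a ∧
      Module.finrank ℂ S.W = N.totient := by
  have he : ∀ x, algebraMap (cyc N) ℂ x ∈ cyc N := fun x => x.2
  choose p h1 h2 h3 h4 using fermat_data ha hs
  choose L hL using exists_phi (algebraMap (cyc N) ℂ) he
  have hinj : ∀ l σ, IsPhi (algebraMap (cyc N) ℂ) N l σ → L σ = l := by
    intro l σ h
    rw [isPhi_iff _ he] at h
    have hz : ∀ t, phi (algebraMap (cyc N) ℂ) he t ⟨zeta N, zeta_mem N⟩ =
        zeta N ^ (t : ZMod N).val := by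
      intro t
      change ((sAut N t ⟨zeta N, zeta_mem N⟩ : cyc N) : ℂ) = _
      rw [sAut_zeta N t ⟨zeta N, zeta_mem N⟩ (zeta_prim N).pow_eq_one]
      rfl
    have h6 := (zeta_prim N).pow_inj (ZMod.val_lt _) (ZMod.val_lt _)
      (((hz (L σ)).symm.trans (by rw [← hL, ← h])).trans (hz l))
    exact Units.ext (ZMod.val_injective N h6)
  have hLp : ∀ l, L (phi (algebraMap (cyc N) ℂ) he l) = l := fun l =>
    hinj l _ ((isPhi_iff _ he _ _).2 rfl)
  let r : DT.RkOne (cyc N) :=
    { wt := n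
      c := fun σ => dirichlet n fun i => frc (a i) (L σ)
      p := fun σ => p (L σ)
      c_ne := fun σ => (h4 (L σ)).1
      p_add := fun σ => by
        have h5 : L (ComplexEmbedding.conjugate σ) = -L σ := by
          apply hinj
          rw [isPhi_iff _ he, ← conj_phi, ← hL]
        rw [h5]
        have h6 := h3 (L σ)
        rw [← h1, ← h1] at h6
        have h7 : ((p (L σ) + p (-L σ) : ℕ) : ℚ) = n := by
          push_cast
          linarith
        exact_mod_cast h7 }
  have hr : ∀ (l : (ZMod N)ˣ) (τ : cyc N →+* ℂ), IsPhi (algebraMap (cyc N) ℂ) N l τ →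
      (N : ℚ) * r.p τ = ∑ b ∈ univ.erase (0 : ZMod N), feps n a b * (((l : ZMod N) * b).val : ℚ) ∧
        Sim (r.c τ) (gammaProd N (feps n a) l) := by
    intro l τ h
    have h5 := hinj l τ h
    subst h5
    exact ⟨h2 _, h4 _⟩
  refine ⟨r.str, DT.pol_rk r _ he _ hr, DT.gammaType_rk r _ he _ hr, ⟨rfl, ?_⟩, ?_⟩
  · classical
    intro C hC
    have hx : ∀ l₀ : (ZMod N)ˣ, (Pi.single (phi (algebraMap (cyc N) ℂ) he l₀) 1 :
        (cyc N →+* ℂ) → ℂ) ∈ C := by
      intro l₀
      refine hC l₀ _ ⟨Module.finrank ℚ (cyc N),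
        fun k => sAut N l₀ (eRes (algebraMap (cyc N) ℂ) he (bad (cyc N) k)),
        fun k => (fun σ : cyc N →+* ℂ => σ (bas (cyc N) k)), fun k => ⟨bas (cyc N) k, fun σ => rfl⟩,
        ?_, ?_⟩
      · refine (single_sum _ _).trans ?_
        refine Finset.sum_congr rfl fun k _ => ?_
        rw [one_mul, phi_apply]
        rfl
      · intro t s hst
        have hs' : s = (algebraMap (cyc N) ℂ).comp (sAut N t).toRingEquiv.toRingHom := by
          apply cyc_ext
          rw [hst ⟨zeta N, zeta_mem N⟩ rfl]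
          change _ = ((sAut N t ⟨zeta N, zeta_mem N⟩ : cyc N) : ℂ)
          rw [sAut_zeta N t ⟨zeta N, zeta_mem N⟩ (zeta_prim N).pow_eq_one]
          rfl
        have hsum : ∀ q : ℂ, r.str.comb
            (fun k => q * s (sAut N l₀ (eRes (algebraMap (cyc N) ℂ) he (bad (cyc N) k))))
            (fun k => (fun σ : cyc N →+* ℂ => σ (bas (cyc N) k))) =
            (Pi.single (phi (algebraMap (cyc N) ℂ) he (t * l₀)) q : (cyc N →+* ℂ) → ℂ) := by
          intro q
          refine Eq.trans ?_ (single_sum _ _).symm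
          refine Finset.sum_congr rfl fun k _ => ?_
          congr 2
          rw [hs', phi_apply, sAut_mul]
          rfl
        refine ⟨p (t * l₀), ?_, ?_, ?_⟩
        · rw [h1]
          refine Finset.sum_congr rfl fun i _ => ?_
          rw [frc_mul, mul_neg]
        · have h5 := hsum 1
          simp only [one_mul] at h5
          rw [h5]
          intro σ hσ
          rw [Pi.single_eq_of_ne]
          rintro rfl
          exact hσ (by change p (L _) = _; rw [hLp])
        · rw [hsum]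
          intro σ
          by_cases hσ : σ = phi (algebraMap (cyc N) ℂ) he (t * l₀)
          · subst hσ
            refine ⟨1, ?_⟩
            rw [Pi.single_eq_same]
            change _ = ((1 : Qbar) : ℂ) * dirichlet n fun i => frc (a i) (L _)
            rw [hLp]
            simp only [frc_mul]
            simp
          · refine ⟨0, ?_⟩
            rw [Pi.single_eq_of_ne hσ]
            simp
    rw [eq_top_iff]
    intro (w : (cyc N →+* ℂ) → ℂ) _
    have hw : w = ∑ τ, w τ • (Pi.single τ 1 : (cyc N →+* ℂ) → ℂ) := by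
      funext σ
      rw [Finset.sum_apply, Finset.sum_eq_single σ]
      · rw [Pi.smul_apply, Pi.single_eq_same, smul_eq_mul, mul_one]
      · intro τ _ hτ
        rw [Pi.smul_apply, Pi.single_eq_of_ne (Ne.symm hτ), smul_zero]
      · intro h
        exact absurd (Finset.mem_univ σ) h
    rw [hw]
    refine Submodule.sum_mem _ fun τ _ => Submodule.smul_mem _ _ ?_
    rw [hL τ]
    exact hx _
  · change Module.finrank ℂ ((cyc N →+* ℂ) → ℂ) = _
    rw [Module.finrank_pi, NumberField.Embeddings.card,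
      IsCyclotomicExtension.finrank (n := N) (cyc N)
        (Polynomial.cyclotomic.irreducible_rat (NeZero.pos N))]

end GD
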