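import Pool.Agent.H26.LN.Real
import Pool.Agent.H51.GD.Main

/-!
# The transfer
-/

noncomputable section

namespace GD

open Complex NumberField Module

variable {P Q : Str} {V : TwoFam P Q} {K : Type} [Field K] [NumberField K] {κ : Act K P}
  {μ : Act K Q} {φ : Q.W ≃ₗ[ℂ] P.W} {n : (K →+* ℂ) → ℕ}

/-- The structure `P` is a quotient of the tensor product of a polarised structure of gamma type
with `Q`. -/
theorem TwoFam.Iso.exists_rank_one (h : V.Iso κ μ φ n) (hQ : Nontrivial Q.W) (e : K →+* ℂ)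
    (he : ∃ d, LiesIn e d) (hκ : (∃ x, (e x).im ≠ 0) → FactorRelation κ e)
    (hμ : (∃ x, (e x).im ≠ 0) → FactorRelation μ e) :
    ∃ (E : Str) (β : E.W →ₗ[ℂ] Q.W →ₗ[ℂ] P.W), Nonempty (Pol E) ∧ GammaType E ∧ IsBil E Q P β ∧
      LinearMap.range (TensorProduct.lift β) = ⊤ := by
  choose c hc hD using h.exists_const
  have hex : ∃ (d : ℕ) (_ : NeZero d) (ε : ZMod d → ℚ), (∀ x, e x ∈ cyc d) ∧
      ∀ (l : (ZMod d)ˣ) (τ : K →+* ℂ), IsPhi e d l τ →
        (d : ℚ) * n τ = ∑ a ∈ Finset.univ.erase (0 : ZMod d), ε a * (((l : ZMod d) * a).val : ℚ) ∧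
          Sim (c τ) (gammaProd d ε l) := by
    by_cases him : ∃ x, (e x).im ≠ 0
    · exact h.exists_gamma hQ e he him (hκ him) (hμ him) c hc hD
    · refine h.exists_gamma_real hQ e he (fun x => ?_) c hc hD
      by_contra hx
      exact him ⟨x, hx⟩
  obtain ⟨d, _, ε, hed, hε⟩ := hex
  have hadd := h.n_add hQ
  let r : DT.RkOne K :=
    { wt := P.wt - Q.wt
      c := c
      p := n
      c_ne := hc
      p_add := fun σ => by
        have := hadd σ
        omega }
  have hwt : r.wt + Q.wt = P.wt := by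
    have h1 := hadd e
    change P.wt - Q.wt + Q.wt = P.wt
    omega
  obtain ⟨β, hβ, hβ'⟩ := h.exists_eval r rfl hwt hD
  exact ⟨r.str, β, DT.pol_rk r e hed ε hε, DT.gammaType_rk r e hed ε hε, hβ, hβ'⟩

/-- The transfer: a class which contains `Q` and the polarised structures of gamma type generates
`P`. -/
theorem TwoFam.Iso.gen_transfer (h : V.Iso κ μ φ n) (e : K →+* ℂ) (he : ∃ d, LiesIn e d)
    (hκ : (∃ x, (e x).im ≠ 0) → FactorRelation κ e)
    (hμ : Nontrivial Q.W → (∃ x, (e x).im ≠ 0) → FactorRelation μ e) {C : Str → Prop}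
    (hQC : Gen C Q) (hC : ∀ S, Nonempty (Pol S) → GammaType S → Gen C S) : Gen C P := by
  by_cases hQ : Nontrivial Q.W
  · obtain ⟨E, β, hP, hE, hβ, hβ'⟩ := h.exists_rank_one hQ e he hκ (hμ hQ)
    refine Gen.ten P 1 (fun _ => E) (fun _ => Q) (fun _ => β) (fun _ => hC E hP hE)
      (fun _ => hQC) (fun _ => hβ) ?_
    rw [ciSup_const, hβ']
  · -- the zero structure
    have h0 : ∀ x : P.W, x = 0 := by
      intro x
      have h1 : φ.symm x = 0 := by
        by_contra h2
        exact hQ ⟨⟨_, _, h2⟩⟩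
      rw [← φ.apply_symm_apply x, h1, map_zero]
    refine Gen.lin P 0 (fun i => i.elim0) (fun i => i.elim0) (fun i => i.elim0)
      (fun i => i.elim0) ?_
    rw [eq_top_iff]
    intro x _
    rw [h0 x]
    exact zero_mem _

end GD
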