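import Pool.Agent.H26.LN.Trip

/-!
# Admissible triples: the two forms of the relation
-/

noncomputable section

namespace GD

open Complex

/-- The old form of the relation. -/
theorem hasRel_iff {S : Str} {F : Type} [Field F] [NumberField F] {e : F →+* ℂ} :
    HasRel S e ↔ ∀ A : Adm S F, Relation A e := by
  constructor
  · intro h A d _ hd p hp ε hε l σ hl z hz
    let A' : Triple S F :=
      { H := A.H
        le := A.le
        sub_hodge := A.sub_hodge
        ι := A.ι
        rat := fun f x h hx => A.ι_rat f ⟨x, h⟩ hx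
        hodge := fun f p x h hx => A.ι_hodge f p ⟨x, h⟩ hx
        rank := A.rank
        dR := fun σ => by
          obtain ⟨w, h1, h2, h3⟩ := A.dR σ
          exact ⟨w, ⟨w.2, fun f => congrArg Subtype.val (h3 f)⟩, h2, h1⟩ }
    have hline : ∀ σ w, A'.ι.OnLine σ w ↔ w ∈ A.line σ := by
      intro σ w
      constructor
      · rintro ⟨h1, h2⟩
        exact ⟨h1, fun f => Subtype.ext (h2 f)⟩
      · rintro ⟨h1, h2⟩
        exact ⟨h1, fun f => congrArg Subtype.val (h2 f)⟩
    refine h A' p (fun σ w hw => hp σ ((hline σ w).1 hw)) d hd ε hε l σ hl z ?_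
    obtain ⟨γ, w, h1, h2, h3, h4, h5⟩ := hz
    exact ⟨γ, w, h1.1, h1.2, (hline σ w).2 h4, h3, h2, h5⟩
  · intro h A p hp d _ hd ε hε l σ hl z hz
    let A' : Adm S F :=
      { H := A.H
        le := A.le
        sub_hodge := A.sub_hodge
        ι := A.ι
        ι_rat := fun f x hx => A.rat f x x.2 hx
        ι_hodge := fun f p x hx => A.hodge f p x x.2 hx
        rank := A.rank
        dR := fun σ => by
          obtain ⟨w, ⟨h3, h4⟩, h2, h1⟩ := A.dR σ
          exact ⟨⟨w, h3⟩, h1, h2, fun f => Subtype.ext (h4 f)⟩ }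
    have hline : ∀ σ w, A.ι.OnLine σ w ↔ w ∈ A'.line σ := by
      intro σ w
      constructor
      · rintro ⟨h1, h2⟩
        exact ⟨h1, fun f => Subtype.ext (h2 f)⟩
      · rintro ⟨h1, h2⟩
        exact ⟨h1, fun f => congrArg Subtype.val (h2 f)⟩
    refine h A' d hd p (fun σ w hw => hp σ w ((hline σ w).2 hw)) ε hε l σ hl z ?_
    obtain ⟨γ, w, h1, h2, h3, h4, h5, h6⟩ := hz
    exact ⟨γ, w, ⟨h1, h2⟩, h5, h4, (hline σ w).1 h3, h6⟩

end GD
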