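import Pool.Agent.H26.LN.Defs
import Pool.Agent.H26.LN.TripIff
import Pool.Agent.H26.LN.Trans
import Pool.Agent.H26.LM.Main
import Pool.Agent.H27.TW.Main

/-!
# The class reached by determinants, limits, constant parts and transfer
-/

noncomputable section

namespace GD

open Complex NumberField

variable {C₀ : Str → Prop} {F : Type} [Field F] [NumberField F] {e : F →+* ℂ}

/-- The relation for the determinants of an action on a factor of a polarised structure, from the
relation for the triples. -/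
theorem factorRelation_of_triples (hP₀ : ∀ T, C₀ T → Nonempty (Pol T)) (he : ∃ d, LiesIn e d)
    (h₀ : TriplesFor (Gen C₀) e) {K : Type} [Field K] [NumberField K] (i : K →+* F) {T : Str}
    (hT : C₀ T) (κ : Act K T) (hκ : ∀ a, IsHom T T (κ a)) (h1 : κ 1 ≠ 0) :
    FactorRelation κ (e.comp i) := by
  obtain ⟨M, ι, hM, -, hι, hικ, hMQ, -, -⟩ := exists_sub κ hκ h1
  have hrel := detRelation_of_triples hP₀ he h₀ i hT hM ι hι
  intro d _ hd ε hε l τ hτ z hz
  refine hrel d hd ε (fun l' τ' hτ' => ?_) l τ hτ z (detPeriod_of hικ hMQ hz)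
  rw [← factorType_eq fun τ => (hικ τ).symm]
  exact hε l' τ' hτ'

/-- The relation for the determinants of a good action. -/
theorem GoodAct.rel {C : Str → Prop} (he : ∃ d, LiesIn e d)
    (h₀ : TriplesFor (Gen fun T => Nonempty (Pol T) ∧ C T) e) {K : Type} [Field K]
    [NumberField K] {i : K →+* F} (him : ∃ x, (e (i x)).im ≠ 0) {S : Str} {φ : Act K S}
    (h : GoodAct e C i φ) : FactorRelation φ (e.comp i) := by
  rcases h with h | ⟨k, T, hT, V, hV⟩
  · exact h
  · have hφa : ∀ a, IsHom S S (φ a) := fun a => (hV.1 a).1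
    obtain ⟨ψ, N, κ', hψ, heig, hN, hκ', hdet, htype⟩ := V.exists_gr φ hV
    have hex' : ∃ d, LiesIn (e.comp i) d := by
      obtain ⟨d, hd⟩ := he
      exact ⟨d, hd.1, fun x => hd.2 (i x)⟩
    refine factorRelation_of_prod hex' him φ κ' hN hκ' htype (fun τ z hz => ?_) fun j =>
      detRelation_of_triples (C₀ := fun T => Nonempty (Pol T) ∧ C T) (fun T hT => hT.1) he h₀ i
        (hT j) (hN j) (κ' j) (hκ' j)
    obtain ⟨z', h1, h2⟩ := V.factor_period φ hφa (fun a => (hV.1 a).2) ψ hψ heig τ hz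
    exact ⟨z', fun j => hdet j τ _ (h1 j), h2⟩

/-- The relation for the simple substructures of a structure whose central actions are good. -/
theorem detFor_of_good {C : Str → Prop} (he : ∃ d, LiesIn e d)
    (h₀ : TriplesFor (Gen fun T => Nonempty (Pol T) ∧ C T) e) {S : Str} (P : Pol S)
    (h : GoodCenter e C S) : DetFor (fun R => R = S) e := by
  intro K _ _ i him hG hc S' hS' M hM ι hι
  subst hS'
  obtain ⟨κ, hκ, hiso⟩ := exists_isot P hM ι hι
  obtain ⟨φ, hφ, hgood⟩ := h K i him hG hc κ hκ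
  have hrel := hgood.rel he h₀ him
  have hφa : ∀ a, IsHom S' S' (φ a) := fun a => by
    rw [hφ.2.2 a]
    exact (hκ.2.1 a).comp hφ.2.1
  obtain ⟨M', ι', hM', hne', hι', heig', -, hcx', hact'⟩ := exists_sub φ hφa hφ.1
  refine rel_of_restriction hM ι hι hκ hiso hφ hM' hι' hcx' hact' ?_
  intro d _ hd ε hε l τ hτ z hz
  refine hrel d hd ε (fun l' τ' hτ' => ?_) l τ hτ z
    (factorPeriod_of hM'.le (fun τ => (heig' τ).symm) hz)
  rw [factorType_eq fun τ => (heig' τ).symm]
  exact hε l' τ' hτ'

/-- A constant part is a structure generated by the piece of the limit. -/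
theorem LimFam.ConstPart.gen {C : Str → Prop} {S : Str} {k : ℕ} {T : Fin k → Str}
    {V : LimFam S T} {j : Fin k} (P : Pol (T j)) (hT : Gen C (T j)) {E : Str}
    (h : V.ConstPart j E) : Gen C E := by
  obtain ⟨hwt, f, hf, hi, hc, hH⟩ := h
  have h : IsHom E (T j) (V.gr j ∘ₗ f) := by
    refine ⟨hf.wt.trans hwt, fun x hx => ?_, fun x hx => ?_, hH⟩
    · exact (V.gr_B _).1 (hf.betti x hx) j
    · exact (V.gr_D _).2 (V.flat_vec (hf.deRham x hx) (hc x).1 (hc x).2.1) j
  have hinj : Function.Injective (V.gr j ∘ₗ f) := by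
    rw [← LinearMap.ker_eq_bot, LinearMap.ker_eq_bot']
    intro x hx
    apply hi
    obtain ⟨y, -, hy⟩ := V.gr_bij fun _ => 0
    rw [map_zero, hy (f x) fun j' => ?_, hy 0 fun j' => map_zero _]
    by_cases hj : j' = j
    · subst hj
      exact hx
    · exact (hc x).2.2 j' hj
  exact gen_of_inj P hT h hinj

/-- The polarised structures with the relation for the determinants of their simple
substructures generate a closed class. -/
theorem closed_gen (he : ∃ d, LiesIn e d) :
    Closed e (Gen fun S => Nonempty (Pol S) ∧ DetFor (fun R => R = S) e) := by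
  let C : Str → Prop := fun S => Nonempty (Pol S) ∧ DetFor (fun R => R = S) e
  have hP : ∀ S, C S → Nonempty (Pol S) := fun S hS => hS.1
  have hC : DetFor C e := fun K _ _ i him hG hc S hS M hM ι hι =>
    hS.2 K i him hG hc S rfl M hM ι hι
  have hT : TriplesFor (Gen C) e := fun R hR A => det_suffices hP e he hC hR A
  have hG : ∀ S, Gen (Gen C) S → Gen C S := fun S hS => Gen.mono_of (fun _ h => h) hS
  have hT' : TriplesFor (Gen fun T => Nonempty (Pol T) ∧ Gen C T) e :=
    fun R hR A => hT R (Gen.mono_of (fun T hT => hT.2) hR) A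
  have hgamma : ∀ S, Nonempty (Pol S) → GammaType S → Gen C S := fun S h1 h2 => by
    refine Gen.base S ⟨h1, ?_⟩
    exact triples_gamma (fun R => R = S) (fun R hR => hR ▸ h1) (fun R hR => hR ▸ h2) e he
  refine ⟨hgamma, hG, ?_, ?_, ?_, ?_⟩
  · rintro R S hR ⟨P⟩ h
    exact Gen.base S ⟨⟨P⟩, detFor_untwist he hP hT hR P h⟩
  · rintro S ⟨P⟩ h
    exact Gen.base S ⟨⟨P⟩, detFor_of_good he hT' P h⟩
  · rintro S k T V j ⟨P⟩ hTj E h
    exact h.gen P hTj
  · rintro Q P hQ ⟨V, K, _, _, i, κ, μ, φ, n, hV, hκ⟩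
    have he' : ∃ d, LiesIn (e.comp i) d := by
      obtain ⟨d, hd⟩ := he
      exact ⟨d, hd.1, fun x => hd.2 (i x)⟩
    refine hV.gen_transfer (e.comp i) he' (fun him => (hκ him).rel he hT' him) (fun h0 _ => ?_)
      hQ hgamma
    obtain ⟨PQ, -⟩ := V.HQ.polarised
    refine factorRelation_of_triples (C₀ := fun T => Nonempty (Pol T) ∧ Gen C T)
      (fun T h => h.1) he hT' i ⟨⟨PQ⟩, hQ⟩ μ (fun a => (hV.act a).2) ?_
    rw [hV.one.2]
    exact one_ne_zero

/-- The relation of Gross and Deligne holds for all triples in the structures of the smallest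
closed class. -/
theorem hasRel_of_inClosure (he : ∃ d, LiesIn e d) {R : Str} (hR : InClosure e R) :
    HasRel R e := by
  have hP : ∀ S, (Nonempty (Pol S) ∧ DetFor (fun R => R = S) e) → Nonempty (Pol S) :=
    fun S hS => hS.1
  have hC : DetFor (fun S => Nonempty (Pol S) ∧ DetFor (fun R => R = S) e) e :=
    fun K _ _ i him hG hc S hS M hM ι hι => hS.2 K i him hG hc S rfl M hM ι hι
  exact hasRel_iff.2 fun A => det_suffices hP e he hC (hR _ (closed_gen he)) A

/-- In a transfer, the structure `P` is a quotient of the tensor product of a polarised structure of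
gamma type with `Q`. -/
theorem Transfer.exists_rank_one (he : ∃ d, LiesIn e d) {P Q : Str} (h0 : Nontrivial Q.W)
    (hQ : InClosure e Q) (h : Transfer e (InClosure e) Q P) :
    ∃ (E : Str) (β : E.W →ₗ[ℂ] Q.W →ₗ[ℂ] P.W), Nonempty (Pol E) ∧ GammaType E ∧ IsBil E Q P β ∧
      LinearMap.range (TensorProduct.lift β) = ⊤ := by
  obtain ⟨V, K, _, _, i, κ, μ, φ, n, hV, hκ⟩ := h
  have he' : ∃ d, LiesIn (e.comp i) d := by
    obtain ⟨d, hd⟩ := he
    exact ⟨d, hd.1, fun x => hd.2 (i x)⟩
  have hT : TriplesFor (Gen fun T => Nonempty (Pol T) ∧ InClosure e T) e := fun R hR =>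
    hasRel_iff.1 (hasRel_of_inClosure he fun C hC =>
      hC.gen R (Gen.mono_of (fun T hT => Gen.base T (hT.2 C hC)) hR))
  obtain ⟨PQ, -⟩ := V.HQ.polarised
  refine hV.exists_rank_one h0 (e.comp i) he' (fun him => (hκ him).rel he hT him) fun _ => ?_
  refine factorRelation_of_triples (C₀ := fun T => Nonempty (Pol T) ∧ InClosure e T)
    (fun T h => h.1) he hT i ⟨⟨PQ⟩, hQ⟩ μ (fun a => (hV.act a).2) ?_
  rw [hV.one.2]
  exact one_ne_zero

/-- A polarised structure lies in the smallest closed class if and only if the relation holds for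
all triples in the structures which it generates. -/
theorem inClosure_iff (he : ∃ d, LiesIn e d) {S : Str} (P : Pol S) :
    InClosure e S ↔ ∀ R, Gen (fun X => X = S) R → HasRel R e := by
  constructor
  · intro h R hR
    refine hasRel_of_inClosure he fun C hC => hC.gen R (Gen.mono_of (fun X hX => ?_) hR)
    rw [hX]
    exact Gen.base S (h C hC)
  · intro h C hC
    refine hC.good S ⟨P⟩ ?_
    intro K _ _ i him hG hc κ hκ
    refine ⟨κ, ⟨hκ.1, hκ.2.1 1, fun a => ?_⟩, Or.inl ?_⟩
    · rw [← map_mul, mul_one]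
    · exact central_of_triples (C₀ := fun X => X = S) (fun X hX => hX ▸ ⟨P⟩) he
        (fun R hR => hasRel_iff.1 (h R hR)) K i him hG hc S rfl κ hκ

end GD
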