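import Pool.Agent.H51.GD.Typ
import Pool.Agent.H5.GD.Bridge

/-!
# The constants of a flat isomorphism for a real field
-/

noncomputable section

namespace GD

open Complex NumberField Module

variable {P Q : Str} {V : TwoFam P Q} {K : Type} [Field K] [NumberField K] {κ : Act K P}
  {μ : Act K Q} {φ : Q.W ≃ₗ[ℂ] P.W} {n : (K →+* ℂ) → ℕ}

/-- All embeddings of a real subfield of a cyclotomic field are real. -/
theorem conjugate_eq {e : K →+* ℂ} (hre : ∀ x, (e x).im = 0) {d : ℕ} [NeZero d]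
    (he : ∀ x, e x ∈ cyc d) (τ : K →+* ℂ) : ComplexEmbedding.conjugate τ = τ := by
  obtain ⟨l, rfl⟩ := exists_phi e he τ
  obtain ⟨G, -, hG⟩ := exists_G e he
  have h1 : ∀ x, G (-1) x = x := by
    intro x
    have h2 : e (G (-1) x) = phi e he (-1) x := by
      have h4 := congrArg (Subtype.val : cyc d → ℂ) (hG (-1) x)
      exact h4
    have h3 : (starRingEnd ℂ) (phi e he 1 x) = phi e he (-1) x := by
      rw [← conj_phi e he 1]
      rfl
    have h4 : (starRingEnd ℂ) (e x) = e x := Complex.conj_eq_iff_im.2 (hre x)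
    rw [phi_one, h4] at h3
    exact e.injective (h2.trans h3.symm)
  refine RingHom.ext fun x => ?_
  rw [conj_phi]
  have h5 := phi_comp_G e he G hG l (-1)
  rw [mul_neg_one] at h5
  rw [← h5]
  change phi e he l (G (-1) x) = _
  rw [h1]

/-- The constants for a real field. -/
theorem TwoFam.Iso.exists_gamma_real (h : V.Iso κ μ φ n) (hQ : Nontrivial Q.W) (e : K →+* ℂ)
    (he : ∃ d, LiesIn e d) (hre : ∀ x, (e x).im = 0) (c : (K →+* ℂ) → ℂ) (hc : ∀ τ, c τ ≠ 0)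
    (hD : ∀ τ, ∀ w ∈ Q.D, w ∈ eigenpart μ τ → c τ • φ w ∈ P.D) :
    ∃ (d : ℕ) (_ : NeZero d) (ε : ZMod d → ℚ), (∀ x, e x ∈ cyc d) ∧
      ∀ (l : (ZMod d)ˣ) (τ : K →+* ℂ), IsPhi e d l τ →
        (d : ℚ) * n τ = ∑ a ∈ Finset.univ.erase (0 : ZMod d), ε a * (((l : ZMod d) * a).val : ℚ) ∧
          Sim (c τ) (gammaProd d ε l) := by
  obtain ⟨d₀, hd₀, hed₀⟩ := he
  have : NeZero d₀ := ⟨hd₀.ne'⟩
  have : NeZero (d₀ * 3) := ⟨by omega⟩
  have hed : ∀ x, e x ∈ cyc (d₀ * 3) := fun x => cyc_le d₀ 3 (hed₀ x)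
  have hconj := conjugate_eq hre hed
  have hn : ∀ τ, 2 * n τ + Q.wt = P.wt := by
    intro τ
    have h1 := h.n_add hQ τ
    rw [hconj] at h1
    omega
  obtain ⟨ε, hε⟩ := ex' gammaSpec (d₀ * 3) (by omega) (2 * n e : ℚ) (fun _ => (n e : ℚ))
    (fun l => by ring)
  refine ⟨d₀ * 3, inferInstance, ε, hed, fun l τ hτ => ?_⟩
  have hne : n τ = n e := by
    have h1 := hn τ
    have h2 := hn e
    omega
  have h3 : (((d₀ * 3 : ℕ) : ℚ)) * n τ =
      ∑ a ∈ Finset.univ.erase (0 : ZMod (d₀ * 3)), ε a * (((l : ZMod (d₀ * 3)) * a).val : ℚ) := by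
    rw [sum_erase, ← tsum_id, hε, hne]
  refine ⟨h3, ?_⟩
  refine sim_of_cls gammaSpec (hc τ) (gammaProd_ne _ _ _) ?_
  rw [cls_gammaProd gammaSpec, gam_const gammaSpec (d₀ * 3) (n e : ℚ) ε hε (by omega) l, ← hne]
  -- the determinants of periods
  obtain ⟨z, hz⟩ := exists_factorPeriod μ (fun a => (h.act a).2) τ
  have hy := h.period (hc τ) (hD τ) hz
  have hz0 : z ≠ 0 := by
    obtain ⟨_, _, _, _, _, _, _, h0⟩ := hz
    exact h0
  obtain ⟨PP, -⟩ := V.HP.polarised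
  obtain ⟨PQ, -⟩ := V.HQ.polarised
  have h4 := factorPeriod_real μ (fun a => (h.act a).2) PQ (hconj τ) hz
  have h5 := factorPeriod_real κ (fun a => (h.act a).1) PP (hconj τ) hy
  have hm : finrank ℂ (eigenpart κ τ) = finrank ℂ (eigenpart μ τ) := by
    rw [← h.map_eigenpart τ]
    exact LinearEquiv.finrank_map_eq φ _
  have hm0 : (finrank ℂ (eigenpart μ τ) : ℚ) ≠ 0 := by
    intro h0
    have h1 := finrank_eigenpart Q μ (fun a => (h.act a).2) h.one.2 τ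
    rw [Nat.cast_eq_zero.1 h0, zero_mul] at h1
    exact (Module.finrank_pos (R := ℂ) (M := Q.W)).ne h1
  rw [hm] at h5
  set m := finrank ℂ (eigenpart μ τ) with hmdef
  have hcm : c τ ^ m ≠ 0 := pow_ne_zero _ (hc τ)
  have h6 := cls_of_sim gammaSpec h4
  have h7 := cls_of_sim gammaSpec h5
  rw [cls_two_pi_I gammaSpec, gammaSpec.mul _ _ hz0 hz0] at h6
  rw [cls_two_pi_I gammaSpec, gammaSpec.mul _ _ (mul_ne_zero hcm hz0) (mul_ne_zero hcm hz0),
    gammaSpec.mul _ _ hcm hz0, cls_pow gammaSpec _ (hc τ)] at h7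
  have h8 : (2 * (m : ℚ)) • Pool.Agent.H11.GD.cls (c τ) =
      (2 * (m : ℚ)) • ((n τ : ℚ) • Pool.Agent.H11.GD.cls ((Real.pi : ℝ) : ℂ)) := by
    have h9 : ((m * P.wt : ℕ) : ℚ) = 2 * (m : ℚ) * n τ + ((m * Q.wt : ℕ) : ℚ) := by
      rw [← hn τ]
      push_cast
      ring
    have h10 : (2 * (m : ℚ)) • Pool.Agent.H11.GD.cls (c τ) =
        ((m : ℚ) • Pool.Agent.H11.GD.cls (c τ) + Pool.Agent.H11.GD.cls z +
          ((m : ℚ) • Pool.Agent.H11.GD.cls (c τ) + Pool.Agent.H11.GD.cls z)) -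
          (Pool.Agent.H11.GD.cls z + Pool.Agent.H11.GD.cls z) := by
      rw [two_mul, add_smul]
      abel
    rw [h10, h6, h7, h9, add_smul, smul_smul]
    abel
  exact smul_right_injective _ (mul_ne_zero two_ne_zero hm0) h8

end GD
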