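import Pool.Agent.H5.GD.Defs

/-!
# Admissible triples and the relation of Gross and Deligne
-/

noncomputable section

namespace GD

open Complex

/-- The vector `x` lies in the de Rham form. -/
abbrev Str.InD (S : Str) (x : S.W) : Prop := x ∈ S.D

/-- The vector `x` has Hodge type `(p, wt - p)`. -/
abbrev Str.InH (S : Str) (p : ℕ) (x : S.W) : Prop := x ∈ S.hodge p

/-- The vector `x` lies in the complexification of the rational subspace `H`. -/
abbrev Str.InCx (S : Str) (H : Submodule ℚ S.W) (x : S.W) : Prop := x ∈ S.cx H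

/-- The unital actions of `F` on the complexification of the rational subspace `H`. -/
abbrev SubAct (S : Str) (H : Submodule ℚ S.W) (F : Type) [Field F] : Type :=
  F →+* Module.End ℂ (S.cx H)

/-- The image of the vector `x` under the element `f` of `F`. -/
abbrev SubAct.ap {S : Str} {H : Submodule ℚ S.W} {F : Type} [Field F] (ι : SubAct S H F) (f : F)
    (x : S.W) (h : S.InCx H x) : S.W := (ι f ⟨x, h⟩ : S.cx H)

/-- The vector `x` lies in the part on which `F` acts through the embedding `σ`. -/
def SubAct.OnLine {S : Str} {H : Submodule ℚ S.W} {F : Type} [Field F] (ι : SubAct S H F)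
    (σ : F →+* ℂ) (x : S.W) : Prop :=
  ∃ h : S.InCx H x, ∀ f, ι.ap f x h = σ f • x

/-- An admissible triple `(H, F, ι)` inside `S`: a sub-Hodge structure `H` of the rational form,
a number field `F` acting on the complexification `span ℂ H` by endomorphisms which preserve `H`
and the Hodge pieces, with `dim H = [F : ℚ]`, such that every eigenline contains a nonzero de Rham
vector. -/
structure Triple (S : Str) (F : Type) [Field F] [NumberField F] where
  /-- the rational sub-Hodge structure -/
  H : Submodule ℚ S.W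
  le : H ≤ S.B
  sub_hodge : SubHodge S H
  /-- the action of `F` -/
  ι : SubAct S H F
  rat : ∀ f x h, x ∈ H → ι.ap f x h ∈ H
  hodge : ∀ f p x h, S.InH p x → S.InH p (ι.ap f x h)
  rank : Module.finrank ℚ H = Module.finrank ℚ F
  dR : ∀ σ, ∃ w, ι.OnLine σ w ∧ S.InD w ∧ w ≠ 0

/-- `z` is a value of the period of `A` at `σ`: `z = γ(w)` for a de Rham vector `w ≠ 0` in the
line `H_σ` and a linear form `γ` which is rational and not zero on `H`. -/
def Triple.IsPeriod {S : Str} {F : Type} [Field F] [NumberField F] (A : Triple S F)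
    (σ : F →+* ℂ) (z : ℂ) : Prop :=
  ∃ (γ : S.W →ₗ[ℂ] ℂ) (w : S.W), (∀ h ∈ A.H, ∃ q : ℚ, γ h = q) ∧ (∃ h ∈ A.H, γ h ≠ 0) ∧
    A.ι.OnLine σ w ∧ S.InD w ∧ w ≠ 0 ∧ z = γ w

/-- The relation of Gross and Deligne, at the conductor of `F`, for the type `p` and the periods
given by the predicate `R`. -/
def GammaRel {F : Type} [Field F] (e : F →+* ℂ) (p : (F →+* ℂ) → ℕ)
    (R : (F →+* ℂ) → ℂ → Prop) : Prop :=
  ∀ (d : ℕ) [NeZero d], d = conductor e → ∀ ε : ZMod d → ℚ,
    (∀ (l : (ZMod d)ˣ) (σ : F →+* ℂ), IsPhi e d l σ →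
      (d : ℚ) * p σ = ∑ a ∈ Finset.univ.erase (0 : ZMod d), ε a * (((l : ZMod d) * a).val : ℚ)) →
    ∀ (l : (ZMod d)ˣ) (σ : F →+* ℂ), IsPhi e d l σ → ∀ z, R σ z → Sim z (gammaProd d ε l)

/-- The relation of Gross and Deligne for all admissible triples in `S` with multiplication
by `F`. -/
def HasRel (S : Str) {F : Type} [Field F] [NumberField F] (e : F →+* ℂ) : Prop :=
  ∀ A : Triple S F, ∀ p, (∀ σ w, A.ι.OnLine σ w → S.InH (p σ) w) → GammaRel e p A.IsPeriod

end GD
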